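import Pool.Agent.helper32.EB.Defs2
import Pool.Agent.helper18.BT.EB
import Pool.Agent.helper37.BT.EC

/-! # bt:ED lower bound for the eigenvalue -/

set_option autoImplicit false

open MeasureTheory ProbabilityTheory Filter Topology
open scoped ENNReal NNReal

namespace Pool.Agent.helper32.EB

/-- the rectangle -/
def ED_rect (p a q b : ℝ) : Set ℂ := {z | (p ≤ z.re ∧ z.re ≤ a) ∧ (q ≤ z.im ∧ z.im ≤ b)}

lemma ED_sq_integral (g : ℂ → ℝ) (hg : Continuous g) (p a q b : ℝ) (hpa : p ≤ a) (hqb : q ≤ b) :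
    ∫ z in ED_rect p a q b, g z = ∫ x in p..a, ∫ y in q..b, g ⟨x, y⟩ := by
  have h1 : ∫ z in ED_rect p a q b, g z =
      ∫ w in (Set.Icc p a ×ˢ Set.Icc q b), g (Complex.measurableEquivRealProd.symm w) := by
    rw [← Complex.volume_preserving_equiv_real_prod.symm.setIntegral_preimage_emb
      Complex.measurableEquivRealProd.symm.measurableEmbedding]
    rfl
  rw [h1, Measure.volume_eq_prod, setIntegral_prod]
  · rw [intervalIntegral.integral_of_le hpa, integral_Icc_eq_integral_Ioc]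
    refine setIntegral_congr_fun measurableSet_Ioc fun x _ => ?_
    rw [intervalIntegral.integral_of_le hqb, integral_Icc_eq_integral_Ioc]
    rfl
  · have hc : Continuous (fun w : ℝ × ℝ => g (Complex.measurableEquivRealProd.symm w)) := by
      have h2 : Continuous (fun w : ℝ × ℝ => g (Complex.equivRealProdCLM.symm w)) :=
        hg.comp Complex.equivRealProdCLM.symm.continuous
      exact h2
    exact (hc.continuousOn).integrableOn_compact (isCompact_Icc.prod isCompact_Icc)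

lemma ED_split (g : ℂ → ℝ) (hg : Continuous g) (m : ℕ) (hm : 0 < m) :
    ∫ z in unitSq, g z = ∑ i ∈ Finset.range m, ∑ j ∈ Finset.range m,
      ∫ z in ED_rect (i / m) (i / m + 1 / m) (j / m) (j / m + 1 / m), g z := by
  have hm' : (0:ℝ) < m := by exact_mod_cast hm
  have hc2 : Continuous (fun w : ℝ × ℝ => g ⟨w.1, w.2⟩) := by
    have h2 : Continuous (fun w : ℝ × ℝ => g (Complex.equivRealProdCLM.symm w)) :=
      hg.comp Complex.equivRealProdCLM.symm.continuous
    exact h2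
  have e : ∀ i : ℕ, (i:ℝ) / m + 1 / m = ((i + 1 : ℕ) : ℝ) / m := by
    intro i; push_cast; ring
  have h1 : ∀ i j : ℕ, ∫ z in ED_rect (i / m) (i / m + 1 / m) (j / m) (j / m + 1 / m), g z =
      ∫ x in ((i:ℝ) / m)..(((i + 1 : ℕ) : ℝ) / m), ∫ y in ((j:ℝ) / m)..(((j + 1 : ℕ) : ℝ) / m),
        g ⟨x, y⟩ := by
    intro i j
    rw [ED_sq_integral g hg _ _ _ _ (by simp) (by simp), e i, e j]
  simp_rw [h1]
  have hin : ∀ x a b : ℝ, IntervalIntegrable (fun y => g ⟨x, y⟩) volume a b := by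
    intro x a b
    exact (hc2.comp (Continuous.prodMk_right x)).intervalIntegrable _ _
  have hout : ∀ a b c d : ℝ, IntervalIntegrable (fun x => ∫ y in a..b, g ⟨x, y⟩) volume c d := by
    intro a b c d
    apply Continuous.intervalIntegrable
    exact intervalIntegral.continuous_parametric_intervalIntegral_of_continuous' (by exact hc2) a b
  have h2 : ∀ i : ℕ, ∑ j ∈ Finset.range m,
      ∫ x in ((i:ℝ) / m)..(((i + 1 : ℕ) : ℝ) / m), ∫ y in ((j:ℝ) / m)..(((j + 1 : ℕ) : ℝ) / m),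
        g ⟨x, y⟩ = ∫ x in ((i:ℝ) / m)..(((i + 1 : ℕ) : ℝ) / m), ∫ y in (0:ℝ)..1, g ⟨x, y⟩ := by
    intro i
    rw [← intervalIntegral.integral_finsetSum (fun j _ => hout _ _ _ _)]
    apply intervalIntegral.integral_congr
    intro x _
    simp only
    have h3 := intervalIntegral.sum_integral_adjacent_intervals (f := fun y => g ⟨x, y⟩)
      (μ := volume) (a := fun j : ℕ => (j:ℝ) / m) (n := m) (fun k _ => hin x _ _)
    rw [h3]
    simp [hm'.ne']
  simp_rw [h2]
  have h3 := intervalIntegral.sum_integral_adjacent_intervals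
      (f := fun x => ∫ y in (0:ℝ)..1, g ⟨x, y⟩)
      (μ := volume) (a := fun j : ℕ => (j:ℝ) / m) (n := m) (fun k _ => hout _ _ _ _)
  rw [h3]
  have h4 := ED_sq_integral g hg 0 1 0 1 zero_le_one zero_le_one
  have h5 : ED_rect 0 1 0 1 = unitSq := rfl
  rw [h5] at h4
  rw [h4]
  simp [hm'.ne']

lemma ED_per {K : Set ℂ} {f : ℂ → ℝ} (hf : Adm K f) (m n : ℤ) (u v : ℝ) :
    f ⟨u + m, v + n⟩ = f ⟨u, v⟩ := by
  have p1 : Function.Periodic f (1:ℂ) := hf.per1
  have pI : Function.Periodic f Complex.I := hf.perI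
  have h1 := p1.int_mul m
  have h2 := pI.int_mul n
  have h3 : (⟨u + m, v + n⟩ : ℂ) = (⟨u, v⟩ + (m:ℂ) * 1) + (n:ℂ) * Complex.I := by
    apply Complex.ext
    · simp
    · simp
  rw [h3, h2, h1]

lemma ED_mass_pos {K : Set ℂ} {f : ℂ → ℝ} (hf : Adm K f) : 0 < mass f := by
  have hc : Continuous f := hf.smooth.continuous
  have h0 : 0 ≤ mass f := setIntegral_nonneg (by
    apply MeasurableSet.inter
    · apply MeasurableSet.inter
      · exact measurableSet_le measurable_const Complex.measurable_re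
      · exact measurableSet_le Complex.measurable_re measurable_const
    · apply MeasurableSet.inter
      · exact measurableSet_le measurable_const Complex.measurable_im
      · exact measurableSet_le Complex.measurable_im measurable_const) (fun _ _ => sq_nonneg _)
  rcases h0.lt_or_eq with h | h
  · exact h
  exfalso
  have hcomp : IsCompact unitSq := by
    have : unitSq = Set.Icc (0:ℝ) 1 ×ℂ Set.Icc (0:ℝ) 1 := by
      ext z; simp [unitSq, Complex.mem_reProdIm]
    rw [this]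
    exact isCompact_Icc.reProdIm isCompact_Icc
  have hcv : Convex ℝ unitSq := by
    intro z hz w hw a b ha hb hab
    obtain ⟨⟨h1, h2⟩, h3, h4⟩ := hz
    obtain ⟨⟨g1, g2⟩, g3, g4⟩ := hw
    refine ⟨⟨?_, ?_⟩, ?_, ?_⟩ <;> simp <;> nlinarith
  have h1 : (fun z => (f z) ^ 2) =ᵐ[volume.restrict unitSq] 0 := by
    rw [← setIntegral_eq_zero_iff_of_nonneg_ae (Filter.Eventually.of_forall fun _ => sq_nonneg _)
      ((hc.pow 2).continuousOn.integrableOn_compact hcomp)]
    exact h.symm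
  have hint : (interior unitSq).Nonempty := by
    refine ⟨⟨1 / 2, 1 / 2⟩, ?_⟩
    rw [mem_interior]
    refine ⟨{z : ℂ | (0 < z.re ∧ z.re < 1) ∧ (0 < z.im ∧ z.im < 1)}, ?_, ?_, ?_⟩
    · rintro z ⟨⟨a, b⟩, c, d⟩
      exact ⟨⟨a.le, b.le⟩, c.le, d.le⟩
    · exact ((isOpen_lt continuous_const Complex.continuous_re).inter
        (isOpen_lt Complex.continuous_re continuous_const)).inter
        ((isOpen_lt continuous_const Complex.continuous_im).inter
        (isOpen_lt Complex.continuous_im continuous_const))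
    · norm_num
  have h2 : Set.EqOn (fun z => (f z) ^ 2) 0 unitSq := by
    refine Measure.eqOn_of_ae_eq h1 (hc.pow 2).continuousOn continuousOn_const ?_
    rw [hcv.closure_interior_eq_closure_of_nonempty_interior hint]
    exact subset_closure
  obtain ⟨z, hz⟩ := hf.nz
  apply hz
  have h3 : f ⟨Int.fract z.re, Int.fract z.im⟩ = f z := by
    have := ED_per hf ⌊z.re⌋ ⌊z.im⌋ (Int.fract z.re) (Int.fract z.im)
    rw [Int.fract_add_floor, Int.fract_add_floor] at this
    exact this.symm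
  have h4 := h2 (x := ⟨Int.fract z.re, Int.fract z.im⟩) ⟨⟨Int.fract_nonneg _, (Int.fract_lt_one _).le⟩,
    Int.fract_nonneg _, (Int.fract_lt_one _).le⟩
  simp only [Pi.zero_apply] at h4
  rw [h3] at h4
  exact pow_eq_zero_iff (by norm_num) |>.1 h4

theorem lam1_ge : ∃ c : ℝ, 0 < c ∧ ∀ (b : ℝ≥0 → ℂ), Continuous b → ∀ s ρ : ℝ, 0 < ρ →
    ρ ≤ 1 / 100 → (∀ x : ℂ, ∃ t : ℝ≥0, (t : ℝ) ≤ s ∧ ‖disp (b t - x)‖ ≤ ρ) →
    ENNReal.ofReal (c / ρ ^ 2) ≤ lam1 {z | ∃ t : ℝ≥0, (t : ℝ) ≤ s ∧ b t = z} := by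
  refine ⟨1 / 20000, by norm_num, fun b hb s ρ hρ hρ1 hd => ?_⟩
  unfold lam1
  refine le_iInf₂ fun f hf => ENNReal.ofReal_le_ofReal ?_
  have hmass := ED_mass_pos hf
  rw [le_div_iff₀ hmass]
  set m : ℕ := ⌊1 / (8 * ρ)⌋₊ with hmdef
  have h8 : (0:ℝ) < 8 * ρ := by positivity
  have h125 : (12:ℝ) ≤ 1 / (8 * ρ) := by
    rw [le_div_iff₀ h8]; linarith
  have hm0 : 12 ≤ m := by
    rw [hmdef]; exact Nat.le_floor (by exact_mod_cast h125)
  have hmpos : 0 < m := by omega
  have hmR : (0:ℝ) < m := by exact_mod_cast hmpos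
  have hm1 : (m:ℝ) ≤ 1 / (8 * ρ) := Nat.floor_le (by positivity)
  have hm2 : 1 / (8 * ρ) < m + 1 := Nat.lt_floor_add_one _
  have hl8 : 8 * ρ ≤ 1 / (m:ℝ) := by
    rw [le_div_iff₀ hmR]
    rw [le_div_iff₀ h8] at hm1
    linarith
  have hl10 : 1 / (m:ℝ) ≤ 10 * ρ := by
    rw [div_le_iff₀ hmR]
    rw [div_lt_iff₀ h8] at hm2
    have : (12:ℝ) ≤ m := by exact_mod_cast hm0
    nlinarith
  have hlpos : (0:ℝ) < 1 / (m:ℝ) := by positivity
  have hC1 : ContDiff ℝ 1 f := hf.smooth.of_le (by exact_mod_cast le_top)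
  have hc : Continuous f := hf.smooth.continuous
  have hcd : Continuous (fun z => (fderiv ℝ f z 1) ^ 2 + (fderiv ℝ f z Complex.I) ^ 2) := by
    have h1 : Continuous (fderiv ℝ f) := hC1.continuous_fderiv (by norm_num)
    exact ((h1.clm_apply continuous_const).pow 2).add ((h1.clm_apply continuous_const).pow 2)
  have hzero : ∀ (t : ℝ≥0) (u v : ℝ) (k n : ℤ), (t : ℝ) ≤ s → b t = ⟨u + k, v + n⟩ →
      f ⟨u, v⟩ = 0 := by
    intro t u v k n ht hbt
    rw [← ED_per hf k n u v, ← hbt]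
    exact (hf.van (b t) ⟨t, ht, rfl⟩).eq_of_nhds
  have key : ∀ i j : ℕ,
      ∫ z in ED_rect (i / m) (i / m + 1 / m) (j / m) (j / m + 1 / m), (f z) ^ 2 ≤
      200 * (1 / (m:ℝ)) ^ 2 * ∫ z in ED_rect (i / m) (i / m + 1 / m) (j / m) (j / m + 1 / m),
        ((fderiv ℝ f z 1) ^ 2 + (fderiv ℝ f z Complex.I) ^ 2) := by
    intro i j
    rcases crossing b hb s ρ hρ hρ1 hd ⟨(i:ℝ) / m + 1 / m / 2, (j:ℝ) / m + 1 / m / 2⟩ with
      ⟨α, β, h1, h2, h3, h4⟩ | ⟨α, β, h1, h2, h3, h4⟩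
    · simp only at h2 h3 h4
      refine poincare_h f hC1 (i / m) (j / m) (1 / m) α β hlpos (by linarith) (by linarith)
        (by linarith) fun u hu1 hu2 => ?_
      obtain ⟨v, hv, t, ht, k, n, hbt⟩ := h4 u hu1 hu2
      rw [abs_le] at hv
      exact ⟨v, by linarith [hv.1], by linarith [hv.2], hzero t u v k n ht hbt⟩
    · simp only at h2 h3 h4
      refine poincare_v f hC1 (i / m) (j / m) (1 / m) α β hlpos (by linarith) (by linarith)
        (by linarith) fun v hv1 hv2 => ?_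
      obtain ⟨u, hu, t, ht, k, n, hbt⟩ := h4 v hv1 hv2
      rw [abs_le] at hu
      exact ⟨u, by linarith [hu.1], by linarith [hu.2], hzero t u v k n ht hbt⟩
  have hE : energy f = ∑ i ∈ Finset.range m, ∑ j ∈ Finset.range m,
      ∫ z in ED_rect (i / m) (i / m + 1 / m) (j / m) (j / m + 1 / m),
        ((fderiv ℝ f z 1) ^ 2 + (fderiv ℝ f z Complex.I) ^ 2) := ED_split _ hcd m hmpos
  have hM : mass f = ∑ i ∈ Finset.range m, ∑ j ∈ Finset.range m,
      ∫ z in ED_rect (i / m) (i / m + 1 / m) (j / m) (j / m + 1 / m), (f z) ^ 2 :=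
    ED_split _ (hc.pow 2) m hmpos
  have h5 : mass f ≤ 200 * (1 / (m:ℝ)) ^ 2 * energy f := by
    rw [hE, hM, Finset.mul_sum]
    refine Finset.sum_le_sum fun i _ => ?_
    rw [Finset.mul_sum]
    exact Finset.sum_le_sum fun j _ => key i j
  have hE0 : 0 ≤ energy f := by
    by_contra hneg
    push Not at hneg
    have : 200 * (1 / (m:ℝ)) ^ 2 * energy f < 0 := mul_neg_of_pos_of_neg (by positivity) hneg
    linarith
  have h6 : (1 / (m:ℝ)) ^ 2 ≤ 100 * ρ ^ 2 := by
    nlinarith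
  have h7 : mass f ≤ 20000 * ρ ^ 2 * energy f := by
    refine h5.trans ?_
    have := mul_le_mul_of_nonneg_right h6 hE0
    nlinarith
  have h8' : 1 / 20000 / ρ ^ 2 * mass f ≤ 1 / 20000 / ρ ^ 2 * (20000 * ρ ^ 2 * energy f) :=
    mul_le_mul_of_nonneg_left h7 (by positivity)
  refine h8'.trans (le_of_eq ?_)
  field_simp

end Pool.Agent.helper32.EB
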