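import Pool.Agent.helper32.EB.Defs2

/-! # bt:PC increments of planar Brownian motion -/

set_option autoImplicit false

open MeasureTheory ProbabilityTheory Filter Topology
open scoped ENNReal NNReal

namespace Pool.Agent.helper32.EB

lemma PC_curry {ι κ Ω : Type*} {mΩ : MeasurableSpace Ω} {P : Measure Ω} {X : ι → κ → Ω → ℝ}
    (mX : ∀ i j, Measurable (X i j))
    (h : iIndepFun (fun (p : (_ : ι) × κ) ω ↦ X p.1 p.2 ω) P) :
    iIndepFun (fun i ω j ↦ X i j ω) P := by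
  have := h.isProbabilityMeasure
  have : ∀ i j, IsProbabilityMeasure (P.map (X i j)) :=
    fun i j ↦ Measure.isProbabilityMeasure_map (mX i j).aemeasurable
  rw [iIndepFun_iff_map_fun_eq_infinitePi_map (by fun_prop)]
  have h2 : (fun ω i j ↦ X i j ω) =
      (MeasurableEquiv.piCurry (fun (_ : ι) (_ : κ) => ℝ)) ∘
        (fun ω (p : (_ : ι) × κ) ↦ X p.1 p.2 ω) := by
    ext; simp [Sigma.curry]
  rw [h2, ← Measure.map_map (by fun_prop) (by fun_prop),
    (iIndepFun_iff_map_fun_eq_infinitePi_map (by fun_prop)).1 h,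
    Measure.infinitePi_map_piCurry (fun i j ↦ P.map (X i j))]
  congr 1
  funext i
  have h3 : iIndepFun (fun j => X i j) P :=
    h.precomp (g := fun j => (⟨i, j⟩ : (_ : ι) × κ)) (by
      intro a b hab
      simpa using hab)
  exact ((iIndepFun_iff_map_fun_eq_infinitePi_map (by fun_prop)).1 h3).symm

lemma PC_bool {ι Ω : Type*} {mΩ : MeasurableSpace Ω} {P : Measure Ω} {X Z : ι → Ω → ℝ}
    (mX : ∀ i, Measurable (X i)) (mZ : ∀ i, Measurable (Z i))
    (hX : iIndepFun X P) (hZ : iIndepFun Z P)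
    (hXZ : IndepFun (fun ω i => X i ω) (fun ω i => Z i ω) P) :
    iIndepFun (fun i ω => (X i ω, Z i ω)) P := by
  have hP := hX.isProbabilityMeasure
  let W : Bool → ι → Ω → ℝ := fun b i => if b then X i else Z i
  have mW : ∀ b i, Measurable (W b i) := by
    intro b i
    cases b
    · exact mZ i
    · exact mX i
  have h1 : iIndepFun (fun b ω ↦ (W b · ω)) P := by
    rw [iIndepFun_iff_measure_inter_preimage_eq_mul]
    intro S sets hsets
    have hind := hXZ.measure_inter_preimage_eq_mul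
    have key : ∀ A B : Set (ι → ℝ), MeasurableSet A → MeasurableSet B →
        P ((fun ω ↦ (W true · ω)) ⁻¹' A ∩ (fun ω ↦ (W false · ω)) ⁻¹' B) =
          P ((fun ω ↦ (W true · ω)) ⁻¹' A) * P ((fun ω ↦ (W false · ω)) ⁻¹' B) := by
      intro A B hA hB
      exact hind A B hA hB
    have hS : ∀ S : Finset Bool, S = ∅ ∨ S = {true} ∨ S = {false} ∨ S = {true, false} := by
      decide
    replace hS := hS S
    rcases hS with rfl | rfl | rfl | rfl
    · simp
    · simp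
    · simp
    · rw [Finset.prod_pair (by decide)]
      have : (⋂ i ∈ ({true, false} : Finset Bool), (fun ω ↦ (W i · ω)) ⁻¹' sets i) =
          (fun ω ↦ (W true · ω)) ⁻¹' sets true ∩ (fun ω ↦ (W false · ω)) ⁻¹' sets false := by
        ext ω; simp [and_comm]
      rw [this]
      exact key _ _ (hsets true (by simp)) (hsets false (by simp))
  have h2 : ∀ b, iIndepFun (W b) P := by
    intro b
    cases b
    · exact hZ
    · exact hX
  have h3 := iIndepFun_uncurry mW h1 h2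
  have h4 : iIndepFun (fun (p : (_ : ι) × Bool) ω ↦ W p.2 p.1 ω) P :=
    h3.precomp (g := fun p : (_ : ι) × Bool => (⟨p.2, p.1⟩ : (_ : Bool) × ι)) (by
      rintro ⟨a, b⟩ ⟨c, d⟩ hab
      simp only [Sigma.mk.injEq, heq_eq_eq] at hab ⊢
      exact ⟨hab.2, hab.1⟩)
  have h5 := PC_curry (X := fun i b => W b i) (fun i b => mW b i) h4
  have h6 := h5.comp (fun _ (u : Bool → ℝ) => (u true, u false)) (fun _ => by fun_prop)
  exact h6

lemma PC_law {Ω : Type*} [MeasurableSpace Ω] {P : Measure Ω} {B : ℝ≥0 → Ω → ℝ}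
    (hB : IsBrownianReal B P) (δ : ℝ≥0) (k : ℕ) :
    HasLaw (fun ω => √2 * (B (((k : ℝ≥0) + 1) * δ) ω - B ((k : ℝ≥0) * δ) ω))
      (gaussianReal 0 (2 * δ)) P := by
  have h1 := hB.toIsPreBrownianReal.hasLaw_sub (((k : ℝ≥0) + 1) * δ) ((k : ℝ≥0) * δ)
  have h2 := gaussianReal_const_mul h1 (√2)
  have e1 : nndist ((((k : ℝ≥0) + 1) * δ : ℝ≥0) : ℝ) (((k : ℝ≥0) * δ : ℝ≥0) : ℝ) = δ := by
    apply NNReal.eq
    rw [coe_nndist, Real.dist_eq]
    push_cast
    rw [show ((k : ℝ) + 1) * (δ : ℝ) - k * δ = δ by ring, abs_of_nonneg (NNReal.coe_nonneg δ)]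
  have e2 : (NNReal.mk (√2 ^ 2) (sq_nonneg _) : ℝ≥0) = 2 := by
    apply NNReal.eq
    simp
  have e3 : gaussianReal (√2 * 0) (NNReal.mk (√2 ^ 2) (sq_nonneg _) *
      nndist ((((k : ℝ≥0) + 1) * δ : ℝ≥0) : ℝ) (((k : ℝ≥0) * δ : ℝ≥0) : ℝ)) =
      gaussianReal 0 (2 * δ) := by
    rw [e1, e2, mul_zero]
  exact e3 ▸ h2

lemma PC_meas_mk : Measurable (fun p : ℝ × ℝ => (⟨p.1, p.2⟩ : ℂ)) :=
  Complex.measurableEquivRealProd.symm.measurable

lemma PC_meas_cut (h : ℝ) : Measurable (cut h) := by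
  unfold cut
  exact Measurable.ite (measurableSet_lt measurable_norm measurable_const) measurable_id
    measurable_const

theorem bm_iid {Ω : Type*} [MeasurableSpace Ω] {P : Measure Ω} {B₁ B₂ : ℝ≥0 → Ω → ℝ}
    (hB : IsBM2 P B₁ B₂) (δ : ℝ≥0) (h : ℝ) :
    IID P (stepLaw δ h)
      (fun k ω => cut h (bm B₁ B₂ (((k : ℝ≥0) + 1) * δ) ω - bm B₁ B₂ ((k : ℝ≥0) * δ) ω)) := by
  have hP := hB.prob
  let X : ℕ → Ω → ℝ := fun k ω => B₁ (((k : ℝ≥0) + 1) * δ) ω - B₁ ((k : ℝ≥0) * δ) ω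
  let Z : ℕ → Ω → ℝ := fun k ω => B₂ (((k : ℝ≥0) + 1) * δ) ω - B₂ ((k : ℝ≥0) * δ) ω
  have mX : ∀ k, Measurable (X k) := fun k => (hB.meas1 _).sub (hB.meas1 _)
  have mZ : ∀ k, Measurable (Z k) := fun k => (hB.meas2 _).sub (hB.meas2 _)
  have mono : Monotone (fun k : ℕ => (k : ℝ≥0) * δ) := by
    intro a b hab
    exact mul_le_mul_left (by exact_mod_cast hab) δ
  have hX : iIndepFun X P := by
    have := hB.bm1.toIsPreBrownianReal.hasIndepIncrements.nat mono
    simpa only [Nat.cast_add, Nat.cast_one] using this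
  have hZ : iIndepFun Z P := by
    have := hB.bm2.toIsPreBrownianReal.hasIndepIncrements.nat mono
    simpa only [Nat.cast_add, Nat.cast_one] using this
  have hXZ : IndepFun (fun ω i => X i ω) (fun ω i => Z i ω) P := by
    have := hB.indep.comp (φ := fun (b : ℝ≥0 → ℝ) (k : ℕ) =>
        b (((k : ℝ≥0) + 1) * δ) - b ((k : ℝ≥0) * δ))
      (ψ := fun (b : ℝ≥0 → ℝ) (k : ℕ) => b (((k : ℝ≥0) + 1) * δ) - b ((k : ℝ≥0) * δ))
      (by fun_prop) (by fun_prop)
    exact this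
  have hpair := PC_bool mX mZ hX hZ hXZ
  have mφ : Measurable (fun p : ℝ × ℝ => cut h (⟨√2 * p.1, √2 * p.2⟩ : ℂ)) := by
    have h1 : Measurable (fun p : ℝ × ℝ => ((√2 * p.1, √2 * p.2) : ℝ × ℝ)) := by fun_prop
    exact (PC_meas_cut h).comp (PC_meas_mk.comp h1)
  have hY : (fun (k : ℕ) ω => cut h (bm B₁ B₂ (((k : ℝ≥0) + 1) * δ) ω -
      bm B₁ B₂ ((k : ℝ≥0) * δ) ω)) =
      fun k => (fun p : ℝ × ℝ => cut h (⟨√2 * p.1, √2 * p.2⟩ : ℂ)) ∘
        (fun ω => (X k ω, Z k ω)) := by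
    funext k ω
    simp only [Function.comp_apply, X, Z, bm]
    congr 1
    apply Complex.ext
    · simp [mul_sub]
    · simp [mul_sub]
  rw [hY]
  refine ⟨fun k => mφ.comp ((mX k).prodMk (mZ k)), fun k => ?_, hpair.comp _ (fun _ => mφ)⟩
  have hi : IndepFun (fun ω => √2 * X k ω) (fun ω => √2 * Z k ω) P :=
    hXZ.comp (φ := fun u : ℕ → ℝ => √2 * u k) (ψ := fun u : ℕ → ℝ => √2 * u k)
      (by fun_prop) (by fun_prop)
  have l1 : P.map (fun ω => √2 * X k ω) = gaussianReal 0 (2 * δ) := (PC_law hB.bm1 δ k).map_eq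
  have l2 : P.map (fun ω => √2 * Z k ω) = gaussianReal 0 (2 * δ) := (PC_law hB.bm2 δ k).map_eq
  have l3 : P.map (fun ω => (√2 * X k ω, √2 * Z k ω)) =
      (gaussianReal 0 (2 * δ)).prod (gaussianReal 0 (2 * δ)) := by
    have := (indepFun_iff_map_prod_eq_prod_map_map ((mX k).const_mul _).aemeasurable
      ((mZ k).const_mul _).aemeasurable).1 hi
    rw [this, l1, l2]
  rw [stepLaw, gauss2, ← l3, Measure.map_map PC_meas_mk
    (((mX k).const_mul _).prodMk ((mZ k).const_mul _)), Measure.map_map (PC_meas_cut h)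
    (PC_meas_mk.comp (((mX k).const_mul _).prodMk ((mZ k).const_mul _)))]
  rfl

end Pool.Agent.helper32.EB
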