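import Pool.Agent.helper55.BT.PC
import Pool.Agent.helper29.BT.PA

/-! # bt:PE comparison of Brownian motion with the walk -/

set_option autoImplicit false

open MeasureTheory ProbabilityTheory Filter Topology
open scoped ENNReal NNReal

namespace Pool.Agent.helper32.EB

lemma PE_map {Ω : Type*} [MeasurableSpace Ω] {P : Measure Ω} {B₁ B₂ : ℝ≥0 → Ω → ℝ}
    (hB : IsBM2 P B₁ B₂) (δ : ℝ≥0) (k : ℕ) :
    P.map (fun ω => bm B₁ B₂ (((k : ℝ≥0) + 1) * δ) ω - bm B₁ B₂ ((k : ℝ≥0) * δ) ω) = gauss2 δ := by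
  have hP := hB.prob
  let X : Ω → ℝ := fun ω => B₁ (((k : ℝ≥0) + 1) * δ) ω - B₁ ((k : ℝ≥0) * δ) ω
  let Z : Ω → ℝ := fun ω => B₂ (((k : ℝ≥0) + 1) * δ) ω - B₂ ((k : ℝ≥0) * δ) ω
  have mX : Measurable X := (hB.meas1 _).sub (hB.meas1 _)
  have mZ : Measurable Z := (hB.meas2 _).sub (hB.meas2 _)
  have hi : IndepFun (fun ω => √2 * X ω) (fun ω => √2 * Z ω) P :=
    hB.indep.comp (φ := fun b : ℝ≥0 → ℝ => √2 * (b (((k : ℝ≥0) + 1) * δ) - b ((k : ℝ≥0) * δ)))
      (ψ := fun b : ℝ≥0 → ℝ => √2 * (b (((k : ℝ≥0) + 1) * δ) - b ((k : ℝ≥0) * δ)))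
      (by fun_prop) (by fun_prop)
  have l1 : P.map (fun ω => √2 * X ω) = gaussianReal 0 (2 * δ) := (PC_law hB.bm1 δ k).map_eq
  have l2 : P.map (fun ω => √2 * Z ω) = gaussianReal 0 (2 * δ) := (PC_law hB.bm2 δ k).map_eq
  have l3 : P.map (fun ω => (√2 * X ω, √2 * Z ω)) =
      (gaussianReal 0 (2 * δ)).prod (gaussianReal 0 (2 * δ)) := by
    have := (indepFun_iff_map_prod_eq_prod_map_map (mX.const_mul _).aemeasurable
      (mZ.const_mul _).aemeasurable).1 hi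
    rw [this, l1, l2]
  rw [gauss2, ← l3, Measure.map_map PC_meas_mk ((mX.const_mul _).prodMk (mZ.const_mul _))]
  congr 1
  funext ω
  simp only [Function.comp_apply, X, Z, bm]
  apply Complex.ext
  · simp [mul_sub]
  · simp [mul_sub]

lemma PE_num (L : ℝ) (hL : 1000 ≤ L) (N : ℕ) (hN : (N : ℝ) ≤ Real.exp (10 * L)) :
    ((N : ℝ) + 1) * (Real.exp (-ph L ^ 2 / (4 * pδ L)) +
      1000 * Real.exp (-(Real.exp (-L) / 2) ^ 2 / (1000 * pδ L))) ≤ Real.exp (-5 * L) := by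
  have hpd : ((pδ L : ℝ≥0) : ℝ) = Real.exp (-3 * L) := by
    rw [pδ, Real.coe_toNNReal _ (Real.exp_pos _).le]
  have e1 : -ph L ^ 2 / (4 * pδ L) = -(Real.exp (L / 2) / 4) := by
    rw [hpd, ph, ← Real.exp_nat_mul]
    rw [neg_div, neg_inj, div_eq_div_iff (by positivity) (by norm_num)]
    have : Real.exp ((2:ℕ) * (-(5 / 4) * L)) = Real.exp (L / 2) * Real.exp (-3 * L) := by
      rw [← Real.exp_add]; congr 1; push_cast; ring
    rw [this]; ring
  have e2 : -(Real.exp (-L) / 2) ^ 2 / (1000 * pδ L) = -(Real.exp L / 4000) := by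
    rw [hpd, div_pow, ← Real.exp_nat_mul]
    rw [neg_div, neg_inj, div_eq_div_iff (by positivity) (by norm_num)]
    have : Real.exp ((2:ℕ) * (-L)) = Real.exp L * Real.exp (-3 * L) := by
      rw [← Real.exp_add]; congr 1; push_cast; ring
    rw [this]; ring
  rw [e1, e2]
  have h1 : (L / 2) ^ 3 / 6 ≤ Real.exp (L / 2) := by
    have := Real.pow_div_factorial_le_exp (L / 2) (by linarith) 3
    simpa [Nat.factorial] using this
  have h2 : L ^ 3 / 6 ≤ Real.exp L := by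
    have := Real.pow_div_factorial_le_exp L (by linarith) 3
    simpa [Nat.factorial] using this
  have hL2 : 1000000 ≤ L ^ 2 := by nlinarith
  have h3 : 16 * L ≤ Real.exp (L / 2) / 4 := by nlinarith
  have h4 : 17 * L ≤ Real.exp L / 4000 := by nlinarith
  have h5 : Real.exp (-(Real.exp (L / 2) / 4)) ≤ Real.exp (-16 * L) :=
    Real.exp_le_exp.2 (by linarith)
  have h6 : Real.exp (-(Real.exp L / 4000)) ≤ Real.exp (-17 * L) :=
    Real.exp_le_exp.2 (by linarith)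
  have h7 : 1001 ≤ Real.exp L := by
    have := Real.add_one_le_exp L
    linarith
  have h8 : 1000 * Real.exp (-17 * L) ≤ Real.exp (-16 * L) := by
    have : Real.exp (-16 * L) = Real.exp L * Real.exp (-17 * L) := by
      rw [← Real.exp_add]; congr 1; ring
    rw [this]
    exact mul_le_mul_of_nonneg_right (by linarith) (Real.exp_pos _).le
  have h9 : Real.exp (-(Real.exp (L / 2) / 4)) + 1000 * Real.exp (-(Real.exp L / 4000)) ≤
      2 * Real.exp (-16 * L) := by linarith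
  have h10 : (1:ℝ) ≤ Real.exp (10 * L) := Real.one_le_exp (by linarith)
  calc ((N : ℝ) + 1) * (Real.exp (-(Real.exp (L / 2) / 4)) +
        1000 * Real.exp (-(Real.exp L / 4000)))
      ≤ (2 * Real.exp (10 * L)) * (2 * Real.exp (-16 * L)) := by
        apply mul_le_mul (by linarith) h9 (by positivity) (by positivity)
    _ = 4 * Real.exp (-6 * L) := by
        rw [show (-6 * L) = 10 * L + -16 * L by ring, Real.exp_add]; ring
    _ ≤ Real.exp (-5 * L) := by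
        have : Real.exp (-5 * L) = Real.exp L * Real.exp (-6 * L) := by
          rw [← Real.exp_add]; congr 1; ring
        rw [this]
        exact mul_le_mul_of_nonneg_right (by linarith) (Real.exp_pos _).le

theorem PE_reduce_of_osc {Ω : Type*} [MeasurableSpace Ω] {P : Measure Ω} {B₁ B₂ : ℝ≥0 → Ω → ℝ}
    (hB : IsBM2 P B₁ B₂)
    (bm_osc : ∀ (t0 δ : ℝ≥0), 0 < δ → ∀ a : ℝ, 0 < a →
      P {ω | ∃ t : ℝ≥0, t ≤ δ ∧ a < ‖bm B₁ B₂ (t0 + t) ω - bm B₁ B₂ t0 ω‖} ≤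
        ENNReal.ofReal (1000 * Real.exp (-a ^ 2 / (1000 * δ)))) : ∃ L0 : ℝ, ∀ L ≥ L0, ∀ N : ℕ, (N : ℝ) ≤ Real.exp (10 * L) →
      ∃ (Y : ℕ → Ω → ℂ) (E : Set Ω), IID P (stepLaw (pδ L) (ph L)) Y ∧ MeasurableSet E ∧
        P E ≤ ENNReal.ofReal (Real.exp (-5 * L)) ∧
        ∀ ω, ω ∉ E → Continuous (fun t => bm B₁ B₂ t ω) ∧ ∀ k : ℕ, k ≤ N → ∀ t : ℝ≥0,
          (k : ℝ) * Real.exp (-3 * L) ≤ t → t ≤ ((k : ℝ) + 1) * Real.exp (-3 * L) →
          ‖bm B₁ B₂ t ω - walk 0 (fun j => Y j ω) k‖ ≤ Real.exp (-L) / 2 := by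
  have hP := hB.prob
  refine ⟨1000, fun L hL N hN => ?_⟩
  have hpd : ((pδ L : ℝ≥0) : ℝ) = Real.exp (-3 * L) := by
    rw [pδ, Real.coe_toNNReal _ (Real.exp_pos _).le]
  have hpos : 0 < pδ L := by
    rw [← NNReal.coe_pos, hpd]; exact Real.exp_pos _
  have hph : 0 < ph L := Real.exp_pos _
  let inc : ℕ → Ω → ℂ := fun k ω =>
    bm B₁ B₂ (((k : ℝ≥0) + 1) * pδ L) ω - bm B₁ B₂ ((k : ℝ≥0) * pδ L) ω
  let A0 : Set Ω := {ω | ¬ (Continuous (fun t => bm B₁ B₂ t ω) ∧ bm B₁ B₂ 0 ω = 0)}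
  let A1 : Set Ω := ⋃ k ∈ Finset.range (N + 1), {ω | ph L ≤ ‖inc k ω‖}
  let A2 : Set Ω := ⋃ k ∈ Finset.range (N + 1), {ω | ∃ t : ℝ≥0, t ≤ pδ L ∧
    Real.exp (-L) / 2 < ‖bm B₁ B₂ ((k : ℝ≥0) * pδ L + t) ω - bm B₁ B₂ ((k : ℝ≥0) * pδ L) ω‖}
  have hA0 : P A0 = 0 := by
    have h1 : ∀ᵐ ω ∂P, Continuous (fun t => bm B₁ B₂ t ω) ∧ bm B₁ B₂ 0 ω = 0 := by
      filter_upwards [hB.bm1.cont, hB.bm2.cont, hB.bm1.toIsPreBrownianReal.eval_zero_ae_eq_zero,
        hB.bm2.toIsPreBrownianReal.eval_zero_ae_eq_zero] with ω c1 c2 z1 z2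
      constructor
      · have h2 : Continuous (fun t => Complex.equivRealProdCLM.symm
            (√2 * B₁ t ω, √2 * B₂ t ω)) :=
          Complex.equivRealProdCLM.symm.continuous.comp
            ((continuous_const.mul c1).prodMk (continuous_const.mul c2))
        exact h2
      · rw [bm, z1, z2]
        apply Complex.ext <;> simp
    exact h1
  have hmeas : ∀ k, Measurable (inc k) := by
    intro k
    have m1 : ∀ t, Measurable (bm B₁ B₂ t) := by
      intro t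
      exact PC_meas_mk.comp (((hB.meas1 t).const_mul _).prodMk ((hB.meas2 t).const_mul _))
    exact (m1 _).sub (m1 _)
  have hA1 : P A1 ≤ ((N : ℝ≥0∞) + 1) * ENNReal.ofReal (Real.exp (-ph L ^ 2 / (4 * pδ L))) := by
    refine (measure_biUnion_finset_le _ _).trans ?_
    have h1 : ∀ k ∈ Finset.range (N + 1), P {ω | ph L ≤ ‖inc k ω‖} ≤
        ENNReal.ofReal (Real.exp (-ph L ^ 2 / (4 * pδ L))) := by
      intro k _
      have h2 : P {ω | ph L ≤ ‖inc k ω‖} = gauss2 (pδ L) {y | ph L ≤ ‖y‖} := by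
        rw [← PE_map hB (pδ L) k, Measure.map_apply (hmeas k)
          (measurableSet_le measurable_const measurable_norm)]
        rfl
      rw [h2]
      exact gauss2_tail (pδ L) hpos (ph L) hph.le
    refine (Finset.sum_le_sum h1).trans ?_
    rw [Finset.sum_const, Finset.card_range, nsmul_eq_mul]
    push_cast
    exact le_rfl
  have hA2 : P A2 ≤ ((N : ℝ≥0∞) + 1) *
      ENNReal.ofReal (1000 * Real.exp (-(Real.exp (-L) / 2) ^ 2 / (1000 * pδ L))) := by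
    refine (measure_biUnion_finset_le _ _).trans ?_
    have h1 : ∀ k ∈ Finset.range (N + 1), P {ω | ∃ t : ℝ≥0, t ≤ pδ L ∧ Real.exp (-L) / 2 <
        ‖bm B₁ B₂ ((k : ℝ≥0) * pδ L + t) ω - bm B₁ B₂ ((k : ℝ≥0) * pδ L) ω‖} ≤
        ENNReal.ofReal (1000 * Real.exp (-(Real.exp (-L) / 2) ^ 2 / (1000 * pδ L))) :=
      fun k _ => bm_osc ((k : ℝ≥0) * pδ L) (pδ L) hpos (Real.exp (-L) / 2) (by positivity)
    refine (Finset.sum_le_sum h1).trans ?_
    rw [Finset.sum_const, Finset.card_range, nsmul_eq_mul]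
    push_cast
    exact le_rfl
  refine ⟨fun k ω => cut (ph L) (inc k ω), toMeasurable P (A0 ∪ A1 ∪ A2), bm_iid hB (pδ L) (ph L),
    measurableSet_toMeasurable _ _, ?_, ?_⟩
  · rw [measure_toMeasurable]
    refine ((measure_union_le _ _).trans (add_le_add_left (measure_union_le _ _) _)).trans ?_
    rw [hA0, zero_add]
    refine (add_le_add hA1 hA2).trans ?_
    rw [← mul_add, ← ENNReal.ofReal_add (Real.exp_pos _).le (by positivity)]
    have h3 : ((N : ℝ≥0∞) + 1) = ENNReal.ofReal ((N : ℝ) + 1) := by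
      rw [ENNReal.ofReal_add (by positivity) zero_le_one, ENNReal.ofReal_natCast,
        ENNReal.ofReal_one]
    rw [h3, ← ENNReal.ofReal_mul (by positivity)]
    exact ENNReal.ofReal_le_ofReal (PE_num L hL N hN)
  · intro ω hω
    have hω' : ω ∉ A0 ∪ A1 ∪ A2 := fun h => hω (subset_toMeasurable _ _ h)
    simp only [Set.mem_union, not_or] at hω'
    obtain ⟨⟨h0, h1⟩, h2⟩ := hω'
    simp only [A0, Set.mem_ofPred_eq, not_not] at h0
    obtain ⟨hcont, hzero⟩ := h0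
    refine ⟨hcont, fun k hk t ht1 ht2 => ?_⟩
    have g1 : ∀ j ≤ N, ‖inc j ω‖ < ph L := by
      intro j hj
      by_contra hcon
      apply h1
      simp only [A1, Set.mem_iUnion]
      exact ⟨j, Finset.mem_range.2 (by omega), not_lt.1 hcon⟩
    have g2 : ∀ s : ℝ≥0, s ≤ pδ L → ‖bm B₁ B₂ ((k : ℝ≥0) * pδ L + s) ω -
        bm B₁ B₂ ((k : ℝ≥0) * pδ L) ω‖ ≤ Real.exp (-L) / 2 := by
      intro s hs
      by_contra hcon
      apply h2
      simp only [A2, Set.mem_iUnion]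
      exact ⟨k, Finset.mem_range.2 (by omega), s, hs, not_le.1 hcon⟩
    have g3 : walk 0 (fun j => cut (ph L) (inc j ω)) k = bm B₁ B₂ ((k : ℝ≥0) * pδ L) ω := by
      rw [walk, zero_add]
      have h4 : ∀ j ∈ Finset.range k, cut (ph L) (inc j ω) =
          bm B₁ B₂ (((j + 1 : ℕ) : ℝ≥0) * pδ L) ω - bm B₁ B₂ ((j : ℝ≥0) * pδ L) ω := by
        intro j hj
        rw [cut, if_pos (g1 j (by have := Finset.mem_range.1 hj; omega))]
        simp only [inc, Nat.cast_add, Nat.cast_one]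
      rw [Finset.sum_congr rfl h4,
        Finset.sum_range_sub (fun j : ℕ => bm B₁ B₂ ((j : ℝ≥0) * pδ L) ω)]
      simp [hzero]
    have hkt : (k : ℝ≥0) * pδ L ≤ t := by
      rw [← NNReal.coe_le_coe]; push_cast; rw [hpd]; exact ht1
    have h5 := g2 (t - (k : ℝ≥0) * pδ L) (by
      rw [tsub_le_iff_right, ← NNReal.coe_le_coe]; push_cast; rw [hpd]; linarith)
    rw [add_tsub_cancel_of_le hkt] at h5
    simp only
    rw [g3]
    exact h5

end Pool.Agent.helper32.EB
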